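import Mathlib
import Pool.Agent.V11160.CodeGV

/-!
# Binary codes closed under a coordinatewise Boolean operation: a dichotomy

For a Boolean function `f` of `k` arguments let `A_f(n, d)` be the largest size of a binary code
of length `n` and minimum distance at least `d` which is closed under `f` applied coordinate by
coordinate. For `1 ≤ d ≤ n`:

* if `f` is affine (a sum modulo 2 of some of its arguments and a constant), then `A_f(n, d)`
  reaches the bound of Gilbert and Varshamov, `A_f(n, d) ≥ 2^n / ∑_{i < d} C(n, i)`;
* if `f` is **not** affine, then `A_f(n, d) = 2^⌊n/d⌋` exactly. So for relative distance `δ` there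
  are at most `2^(1/δ)` words, and the asymptotic rate is zero.

Outline of the second part. A second difference of `f` is not zero, so the code is closed under a
function `g(s, t, x, y)` for which `g(0, 1, x, y)` is not affine in `x, y`; a case analysis (over
`g(x, x, x, x)`, and for idempotent `g` whether `g` is self-dual) gives a word `c` such that the
code is closed under `(x, y) ↦ maj(c, x, y)`. After translation by `c` the code is closed under
intersections, and an intersection-closed family with pairwise symmetric differences of size at
least `d` splits, along the difference of its two smallest members, into two families on `n - d`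
points.
-/

set_option autoImplicit false

namespace Pool.Agent.Results.MP_0430e4_lc.CoordinatewiseOperations

open Finset

/-- `f` is affine: the sum modulo 2 of a constant and of some of its arguments -/
def Affine {k : ℕ} (f : (Fin k → Bool) → Bool) : Prop :=
  ∃ (c : Bool) (A : Finset (Fin k)), ∀ v,
    f v = xor c (decide (Odd (A.filter fun i => v i = true).card))

/-- the code `C` is closed under `f` applied coordinate by coordinate -/
def Closed {n k : ℕ} (f : (Fin k → Bool) → Bool) (C : Finset (Fin n → Bool)) : Prop :=
  ∀ w : Fin k → Fin n → Bool, (∀ i, w i ∈ C) → (fun l => f fun i => w i l) ∈ C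

/-- any two distinct words differ in at least `d` coordinates -/
def MinDist {n : ℕ} (d : ℕ) (C : Finset (Fin n → Bool)) : Prop :=
  ∀ x ∈ C, ∀ y ∈ C, x ≠ y → d ≤ hammingDist x y

/-- **Dichotomy for codes closed under a coordinatewise Boolean operation.**
Let `f` be a Boolean function of `k` arguments and `1 ≤ d ≤ n`.
1. If `f` is not affine, the largest size of an `f`-closed binary code of length `n` with minimum
   distance at least `d` is exactly `2 ^ ⌊n / d⌋`.
2. If `f` is affine, some `f`-closed code of length `n` with minimum distance at least `d` has at
   least `2 ^ n / ∑_{i < d} C(n, i)` words. -/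
theorem result (k : ℕ) (f : (Fin k → Bool) → Bool) (n d : ℕ) (hd : 1 ≤ d) (hdn : d ≤ n) :
    (¬ Affine f → IsGreatest {N : ℕ | ∃ C : Finset (Fin n → Bool),
      Closed f C ∧ MinDist d C ∧ C.card = N} (2 ^ (n / d))) ∧
    (Affine f → ∃ C : Finset (Fin n → Bool), Closed f C ∧ MinDist d C ∧
      2 ^ n ≤ C.card * ∑ i ∈ range d, n.choose i) := by
  refine ⟨fun hf => ⟨?_, ?_⟩, fun hf => ?_⟩
  · obtain ⟨C, h1, h2, h3⟩ := V11160.CO.block_code hd hdn
    exact ⟨C, h1 k f, h2, h3⟩
  · rintro N ⟨C, h1, h2, rfl⟩
    exact V11160.CO.upper hf hd h1 h2
  · obtain ⟨C, h1, h2⟩ := V11160.CO.gv hd hdn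
    exact ⟨C, V11160.CO.closed_of_good hf h1, h1.2.2, h2⟩

end Pool.Agent.Results.MP_0430e4_lc.CoordinatewiseOperations
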