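import Pool.Agent.Y570.KP.Complete
import Pool.Agent.Results.MP_0430e4_lc.LinearProgrammingLimit
import Pool.Agent.Results.MP_0430e4_lc.SumOfSquaresLevels

/-!
# MP_0430e4_lc: the asymptotic value of the k-point semidefinite bounds for binary codes

For every `k ≥ 2` the `k`-point bound `kPointBound k n d` uses the probabilities
`y(S) = Prob(S ⊆ C)`, `|S| ≤ k`, of a random code `C`: conditioned on `D ⊆ C` and `E ∩ C = ∅` with
`|D| + |E| ≤ k - 2` the matrix of the second moments of the indicators of the words, bordered by the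
first moments, is positive semidefinite, and the probabilities of all the events
`D ⊆ C, E ∩ C = ∅` with `|D| + |E| ≤ k` are nonnegative. For `k = 2` this is at most the bound of
Delsarte's linear program, the case `k = 3` contains all the constraints of Schrijver's
bound from triples of words (2005), and for `k = 2^n` the bound is exact.

We show that for every fixed `k ≥ 2` and every `0 < δ < 1/2` the exponent
`lim (1/n) log₂ kPointBound k n ⌈δ n⌉` exists and does not depend on `k`: it is the exponent `θ(δ)` of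
Delsarte's linear program, given by an explicit curve, and it is larger than the exponent `1 - H(δ)`
of Gilbert and Varshamov. The same is true for the `k`-point bounds for the codes in any weighted set
of words, for instance for constant weight codes, combined with the inequality of Elias and
Bassalygo, uniformly in the weights.

The proof is in the files `Pool/Agent/Y570/KP` of the starting library, whose theorems had not been
handed in. The starting result `SumOfSquaresLevels` gives only the exponent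
`1 - H(δ) + gain δ < θ(δ)` as a lower bound for the bounds considered here.
-/

set_option autoImplicit false

open Filter Topology

namespace Pool.Agent.Results.MP_0430e4_lc.KPointLimit

/-! ### Codes and Delsarte's linear program -/

/-- `A(n,d)`: the largest size of a binary code of length `n` with minimum distance at least `d`. -/
noncomputable def A (n d : ℕ) : ℕ :=
  sSup {k | ∃ C : Finset (Fin n → Bool),
    (∀ x ∈ C, ∀ y ∈ C, x ≠ y → d ≤ hammingDist x y) ∧ C.card = k}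

/-- The binary Krawtchouk polynomial `K_j` of length `n` at `w`,
`∑_i (-1)^i (w choose i) (n - w choose j - i)`. -/
def krawtchouk (n j w : ℕ) : ℤ :=
  ∑ i ∈ Finset.range (j + 1), (-1) ^ i * (w.choose i : ℤ) * ((n - w).choose (j - i) : ℤ)

/-- `f(w) = ∑_{j ≤ n} l_j K_j(w)`. -/
noncomputable def combination (n : ℕ) (l : ℕ → ℝ) (w : ℕ) : ℝ :=
  ∑ j ∈ Finset.range (n + 1), l j * (krawtchouk n j w : ℝ)

/-- The feasible solutions of Delsarte's linear program for binary codes of length `n` and minimum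
distance `d`. Each of them gives the bound `A(n, d) ≤ f(0) / l_0`. -/
structure IsFeasible (n d : ℕ) (l : ℕ → ℝ) : Prop where
  nonneg : ∀ j, 0 ≤ l j
  pos : 0 < l 0
  nonpos : ∀ w : ℕ, d ≤ w → w ≤ n → combination n l w ≤ 0

/-- The value of Delsarte's linear program: the infimum of the bounds `f(0) / l_0`. -/
noncomputable def LP (n d : ℕ) : ℝ :=
  sInf {v : ℝ | ∃ l : ℕ → ℝ, IsFeasible n d l ∧ v = combination n l 0 / l 0}

/-! ### The k-point bounds -/

/-- The pseudo-probability of `D ∪ S ⊆ C, E ∩ C = ∅`: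
`∑_{F ⊆ E} (-1)^|F| y(D ∪ F ∪ S)`. -/
def pseudoProb {n : ℕ} (y : Finset (Fin n → Bool) → ℝ) (D E S : Finset (Fin n → Bool)) : ℝ :=
  ∑ F ∈ E.powerset, (-1) ^ F.card * y (D ∪ F ∪ S)

/-- Solutions of the `k`-point program for the length `n` and the minimum distance `d`: `y(∅) = 1`,
`y(S) = 0` if `S` has two words at distance less than `d`, the pseudo-probabilities of the events
`D ⊆ C, E ∩ C = ∅` with `|D| + |E| ≤ k` are nonnegative, and for `|D| + |E| + 2 ≤ k` the matrix with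
the entries `pseudoProb y D E (s ∪ t)`, where `s` and `t` run over the empty set (`none`) and the
sets with one word `x` (`some x`), is positive semidefinite. -/
structure IsKPoint (k n d : ℕ) (y : Finset (Fin n → Bool) → ℝ) : Prop where
  one : y ∅ = 1
  dist : ∀ S : Finset (Fin n → Bool), ∀ u ∈ S, ∀ v ∈ S, u ≠ v → hammingDist u v < d → y S = 0
  nonneg : ∀ D E : Finset (Fin n → Bool), D.card + E.card ≤ k → 0 ≤ pseudoProb y D E ∅
  psd : ∀ D E : Finset (Fin n → Bool), D.card + E.card + 2 ≤ k →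
    ∀ a : Option (Fin n → Bool) → ℝ,
      0 ≤ ∑ s, ∑ t, a s * a t * pseudoProb y D E (s.toFinset ∪ t.toFinset)

/-- The `k`-point bound with the weights `w`: the largest value of `∑_x w(x) y({x})`. -/
noncomputable def kPointBoundW (k n d : ℕ) (w : (Fin n → Bool) → ℝ) : ℝ :=
  sSup {v : ℝ | ∃ y, IsKPoint k n d y ∧ v = ∑ x, w x * y {x}}

/-- The `k`-point bound: all weights are `1`. -/
noncomputable def kPointBound (k n d : ℕ) : ℝ := kPointBoundW k n d fun _ => 1

/-! ### The exponents -/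

/-- `η(x) = -x log₂ x`, with `η(0) = 0`. -/
noncomputable def η (x : ℝ) : ℝ := -x * Real.logb 2 x

/-- The binary entropy function. -/
noncomputable def H (x : ℝ) : ℝ := η x + η (1 - x)

/-- `h(x) = H(1/2 - 1/2 √(1 - x))`. -/
noncomputable def h (x : ℝ) : ℝ := H (1 / 2 - 1 / 2 * √(1 - x))

/-- `α_k(e) = ∑_j sech²((2 j + k) e) / ∑_j sech((2 j + k) e)`, sums over all integers `j`. -/
noncomputable def α (k : ℤ) (e : ℝ) : ℝ :=
  (∑' j : ℤ, 1 / Real.cosh ((2 * j + k) * e) ^ 2) / ∑' j : ℤ, 1 / Real.cosh ((2 * j + k) * e)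

/-- `S(e) = h(sech² e) - h(sech² 2e) + h(sech² 3e) - …`. -/
noncomputable def S (e : ℝ) : ℝ := ∑' n : ℕ, (-1) ^ n * h (1 / Real.cosh ((n + 1) * e) ^ 2)

/-- The curve of the pairs `(δ, θ)`. -/
def Curve : Set (ℝ × ℝ) :=
  {p | (∃ e : ℝ, 0 < e ∧ p = ((1 - α 1 e) / 2, S e)) ∨
    (∃ e : ℝ, 0 < e ∧ p = ((1 - α 0 e) / 2, 1 - S e)) ∨ p = (1 / 2 - 1 / Real.pi, 1 / 2)}

/-- Half of the difference between the exponents `H(1/2 - √(δ (1 - δ)))` of McEliece, Rodemich,
Rumsey and Welch (first bound) and `1 - H(δ)` of Gilbert and Varshamov. -/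
noncomputable def gain (δ : ℝ) : ℝ := (H (1 / 2 - √(δ * (1 - δ))) - (1 - H δ)) / 2

/-! ### Comparison with the library -/

open Pool.Agent.TH41.BL Pool.Agent.Y570

lemma isKPoint_iff (k n d : ℕ) (y : Finset (Fin n → Bool) → ℝ) :
    IsKPoint k n d y ↔ KP.PC n d k y :=
  ⟨fun h => ⟨h.one, h.dist, h.nonneg, h.psd⟩, fun h => ⟨h.one, h.dist, h.nonneg, h.psd⟩⟩

lemma kPointBoundW_eq (k n d : ℕ) (w : (Fin n → Bool) → ℝ) : kPointBoundW k n d w = KP.SW n d k w := by
  unfold kPointBoundW KP.SW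
  simp only [isKPoint_iff]

lemma LP_eq (n d : ℕ) : LP n d = LinearProgrammingLimit.LP n d := by
  unfold LP LinearProgrammingLimit.LP
  congr 1
  ext v
  constructor
  · rintro ⟨l, hl, hv⟩
    exact ⟨l, ⟨hl.nonneg, hl.pos, hl.nonpos⟩, hv⟩
  · rintro ⟨l, hl, hv⟩
    exact ⟨l, ⟨hl.nonneg, hl.pos, hl.nonpos⟩, hv⟩

lemma A_eq (n d : ℕ) : A n d = LinearProgrammingLimit.A n d := rfl

lemma Curve_eq : Curve = LinearProgrammingLimit.Curve := rfl

lemma LP_le {k n d : ℕ} (hk : 2 ≤ k) (hd : 1 ≤ d) : kPointBound k n d ≤ LP n d := by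
  unfold kPointBound
  rw [kPointBoundW_eq, LP_eq, LinearProgrammingLimit.LP_eq]
  refine csSup_le ⟨_, _, KP.pc_code (n := n) (d := d) (k := k) ∅ (by simp), rfl⟩ ?_
  rintro v ⟨y, hy, rfl⟩
  refine le_csInf ⟨_, _, DELf.feas_one hd, rfl⟩ ?_
  rintro v ⟨l, hl, rfl⟩
  simp only [one_mul]
  exact hy.le_lp k7_chr hk hl

lemma ke_of_curve {δ θ : ℝ} (h : (δ, θ) ∈ Curve) : KP.Ke δ (θ * Real.log 2) := by
  have h0 := (LinearProgrammingLimit.point (Curve_eq ▸ h)).1
  rcases h with ⟨e, he, hp⟩ | ⟨e, he, hp⟩ | hp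
  · obtain ⟨h2, h3⟩ := Prod.mk.inj hp
    rw [h3, h2]
    have e1 : α 1 e = B2s e / Bs e := LinearProgrammingLimit.α_one e
    rw [e1]
    refine KP.ke_two k7_chr he ?_
    rw [← e1, ← h2]
    exact h0.le
  · obtain ⟨h2, h3⟩ := Prod.mk.inj hp
    rw [h3, h2]
    have e1 : α 0 e = A2s e / As e := LinearProgrammingLimit.α_zero e
    rw [e1]
    exact KP.ke_one k7_chr he
  · obtain ⟨h2, h3⟩ := Prod.mk.inj hp
    rw [h3, h2]
    exact KP.ke_mid k7_chr


lemma delta_pos {δ θ : ℝ} (h : (δ, θ) ∈ Curve) : 0 < δ :=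
  (LinearProgrammingLimit.point (Curve_eq ▸ h)).1

lemma lower_bound {δ θ : ℝ} (h : (δ, θ) ∈ Curve) {k : ℕ} (hk : 1 ≤ k) {ε : ℝ} (hε : 0 < ε) :
    ∃ n₀ : ℕ, ∀ n ≥ n₀, ∀ w : (Fin n → Bool) → ℝ, (∀ x, 0 ≤ w x) →
      (2 : ℝ) ^ ((θ - ε) * n) * ∑ x, w x ≤ 2 ^ n * kPointBoundW k n ⌈δ * n⌉₊ w := by
  have hl2 : 0 < Real.log 2 := Real.log_pos (by norm_num)
  have hδ : 0 < δ := delta_pos h
  obtain ⟨n₀, hn₀⟩ := KP.lower hk (ke_of_curve h) (ε * Real.log 2) (by positivity)
  refine ⟨max n₀ 1, fun n hn w hw => ?_⟩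
  have hn1 : 1 ≤ n := le_trans (le_max_right _ _) hn
  have hnp : (0 : ℝ) < n := by exact_mod_cast hn1
  have h1 := hn₀ n (le_trans (le_max_left _ _) hn) ⌈δ * n⌉₊ (Nat.ceil_pos.2 (by positivity))
    (Nat.ceil_lt_add_one (by positivity)).le w hw
  rw [kPointBoundW_eq]
  have e : (2 : ℝ) ^ ((θ - ε) * n) =
      Real.exp (n * (θ * Real.log 2 - ε * Real.log 2)) := by
    rw [Real.rpow_def_of_pos two_pos]
    congr 1
    ring
  rw [e]
  exact h1

lemma sos_le {s n d : ℕ} (hs : 1 ≤ s) : SumOfSquaresLevels.SOS s 1 n d ≤ kPointBound s n d := by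
  unfold kPointBound
  rw [SumOfSquaresLevels.SOS_eq, kPointBoundW_eq]
  refine csSup_le (LS.nonempty _ _ _ _) ?_
  rintro v ⟨y, hy, rfl⟩
  refine le_csSup (KP.bdd_SW hs fun _ => zero_le_one) ⟨y, hy.to_kp le_rfl, ?_⟩
  simp only [one_mul]

lemma H_eq (x : ℝ) : SumOfSquaresLevels.H x = H x := by
  unfold SumOfSquaresLevels.H H η
  ring

lemma gain_eq (δ : ℝ) : SumOfSquaresLevels.gain δ = gain δ := by
  unfold SumOfSquaresLevels.gain gain
  rw [H_eq, H_eq]

lemma one_le_bound {k n d : ℕ} (hk : 1 ≤ k) : 1 ≤ kPointBound k n d := by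
  unfold kPointBound
  rw [kPointBoundW_eq]
  have h1 := KP.code_le (n := n) (d := d) hk {fun _ => true} (by simp) (w := fun _ => 1)
    fun _ => zero_le_one
  simpa using h1

/-- the exponents of the k-point bounds -/
lemma limit {δ θ : ℝ} (h : (δ, θ) ∈ Curve) {k : ℕ} (hk : 2 ≤ k) :
    Tendsto (fun n : ℕ => Real.logb 2 (kPointBound k n ⌈δ * n⌉₊) / n) atTop (𝓝 θ) := by
  have hδ := delta_pos h
  have hup := LinearProgrammingLimit.result.2.2.1 δ θ (Curve_eq ▸ h)
  refine tendsto_order.2 ⟨fun a ha => ?_, fun b hb => ?_⟩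
  · obtain ⟨n₀, hn₀⟩ := lower_bound h (k := k) (by omega) (ε := (θ - a) / 2) (by linarith)
    filter_upwards [eventually_ge_atTop n₀, eventually_gt_atTop 0] with n hn hn0
    have hnp : (0 : ℝ) < n := by exact_mod_cast hn0
    have h1 := hn₀ n hn (fun _ => 1) (fun _ => zero_le_one)
    have h2 : ∑ _x : Fin n → Bool, (1 : ℝ) = 2 ^ n := by
      rw [Finset.sum_const, Finset.card_univ, Fintype.card_fun, Fintype.card_bool,
        Fintype.card_fin]
      simp
    rw [h2, mul_comm] at h1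
    have h3 := le_of_mul_le_mul_left h1 (by positivity)
    have h4 := Real.logb_le_logb_of_le (b := 2) (by norm_num) (by positivity) h3
    rw [Real.logb_rpow (by norm_num) (by norm_num)] at h4
    rw [lt_div_iff₀ hnp]
    have h5 : a * n < (θ - (θ - a) / 2) * n := by
      refine mul_lt_mul_of_pos_right ?_ hnp
      linarith
    exact h5.trans_le h4
  · filter_upwards [hup.eventually (eventually_lt_nhds hb), eventually_gt_atTop 0] with n hn hn0
    have hnp : (0 : ℝ) < n := by exact_mod_cast hn0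
    refine lt_of_le_of_lt ?_ hn
    refine div_le_div_of_nonneg_right ?_ hnp.le
    have h1 : kPointBound k n ⌈δ * n⌉₊ ≤ LinearProgrammingLimit.LP n ⌈δ * n⌉₊ := by
      rw [← LP_eq]
      exact LP_le hk (Nat.ceil_pos.2 (by positivity))
    exact Real.logb_le_logb_of_le (by norm_num)
      (lt_of_lt_of_le one_pos (one_le_bound (by omega))) h1

lemma gain_le {δ θ : ℝ} (h : (δ, θ) ∈ Curve) (h1 : δ < 1 / 2) :
    0 < gain δ ∧ 1 - H δ + gain δ ≤ θ := by
  have hδ := delta_pos h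
  have hg := SumOfSquaresLevels.result.2.2.2.1 δ hδ h1
  rw [gain_eq] at hg
  refine ⟨hg, ?_⟩
  refine le_of_forall_lt fun c hc => ?_
  obtain ⟨γ, hγ⟩ : ∃ γ : ℝ, γ = (c - (1 - H δ) + gain δ) / 2 := ⟨_, rfl⟩
  have hγ1 : γ < gain δ := by rw [hγ]; linarith
  have hγ2 : c < 1 - H δ + γ := by rw [hγ]; linarith
  obtain ⟨c', hc', n₀, H'⟩ := SumOfSquaresLevels.result.2.2.2.2 δ γ hδ h1 (by rwa [gain_eq])
  have hlim := limit h (k := 2) le_rfl
  refine lt_of_lt_of_le hγ2 ?_
  refine ge_of_tendsto hlim ?_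
  obtain ⟨n₁, hn₁⟩ := exists_nat_ge ((2 / c') ^ 2)
  filter_upwards [eventually_ge_atTop n₀, eventually_ge_atTop n₁, eventually_gt_atTop 0]
    with n hn hn1 hn0
  have hnp : (0 : ℝ) < n := by exact_mod_cast hn0
  have h2 : (2 : ℝ) ≤ c' * √n := by
    have h3 : (2 / c') ^ 2 ≤ (n : ℝ) := hn₁.trans (by exact_mod_cast hn1)
    have h4 := Real.le_sqrt_of_sq_le h3
    rw [div_le_iff₀ hc'] at h4
    linarith
  have h5 := (H' n hn).1 2 1 le_rfl (by exact_mod_cast h2) (by push_cast; linarith)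
  have h6 := h5.trans (sos_le (n := n) (d := ⌈δ * n⌉₊) (s := 2) (by norm_num))
  have h7 := Real.logb_le_logb_of_le (b := 2) (by norm_num) (by positivity) h6
  rw [Real.logb_rpow (by norm_num) (by norm_num), H_eq] at h7
  rw [le_div_iff₀ hnp]
  refine le_trans (le_of_eq ?_) h7
  push_cast
  ring

/-- **The asymptotic value of the k-point semidefinite bounds for binary codes.** -/
theorem result :
    -- (1) validity, also with weights, the inequality of Elias and Bassalygo, monotonicity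
    (∀ k n d : ℕ, 1 ≤ k → ∀ w : (Fin n → Bool) → ℝ, (∀ x, 0 ≤ w x) →
      (∀ C : Finset (Fin n → Bool), (∀ x ∈ C, ∀ y ∈ C, x ≠ y → d ≤ hammingDist x y) →
        ∑ x ∈ C, w x ≤ kPointBoundW k n d w) ∧
      (A n d : ℝ) * ∑ x, w x ≤ 2 ^ n * kPointBoundW k n d w ∧
      kPointBoundW (k + 1) n d w ≤ kPointBoundW k n d w) ∧
    -- (2) comparison with Delsarte's linear program, and exactness at the last level
    (∀ k n d : ℕ, 2 ≤ k → 1 ≤ d → (A n d : ℝ) ≤ kPointBound k n d ∧ kPointBound k n d ≤ LP n d) ∧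
    (∀ k n d : ℕ, 2 ^ n ≤ k → kPointBound k n d = A n d) ∧
    -- (3) the curve is defined for all distances and is above the bound of Gilbert and Varshamov
    (∀ δ : ℝ, 0 < δ → δ < 1 / 2 → ∃ θ, (δ, θ) ∈ Curve) ∧
    (∀ δ θ : ℝ, 0 < δ → δ < 1 / 2 → (δ, θ) ∈ Curve → 0 < gain δ ∧ 1 - H δ + gain δ ≤ θ) ∧
    -- (4) the exponents of the k-point bounds, for every fixed k
    ∀ δ θ : ℝ, (δ, θ) ∈ Curve →
      (∀ k : ℕ, 2 ≤ k →
        Tendsto (fun n : ℕ => Real.logb 2 (kPointBound k n ⌈δ * n⌉₊) / n) atTop (𝓝 θ)) ∧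
      ∀ k : ℕ, 1 ≤ k → ∀ ε : ℝ, 0 < ε → ∃ n₀ : ℕ, ∀ n ≥ n₀, ∀ w : (Fin n → Bool) → ℝ,
        (∀ x, 0 ≤ w x) →
        (2 : ℝ) ^ ((θ - ε) * n) * ∑ x, w x ≤ 2 ^ n * kPointBoundW k n ⌈δ * n⌉₊ w := by
  refine ⟨fun k n d hk w hw => ⟨fun C hC => ?_, ?_, ?_⟩, fun k n d hk hd => ⟨?_, LP_le hk hd⟩,
    fun k n d hk => ?_, ?_, fun δ θ h0 h1 h => gain_le h h1, fun δ θ h => ⟨fun k hk => limit h hk,
      fun k hk ε hε => lower_bound h hk hε⟩⟩
  · rw [kPointBoundW_eq]
    exact KP.code_le hk C hC hw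
  · obtain ⟨C, hC, hcard⟩ := LinearProgrammingLimit.A_mem n d
    rw [kPointBoundW_eq, A_eq, ← hcard]
    exact KP.elias hk hw C hC
  · rw [kPointBoundW_eq, kPointBoundW_eq]
    refine csSup_le_csSup (KP.bdd_SW hk hw)
      ⟨_, _, KP.pc_code (n := n) (d := d) (k := k + 1) ∅ (by simp), rfl⟩ ?_
    rintro v ⟨y, hy, rfl⟩
    exact ⟨y, hy.mono (Nat.le_succ k), rfl⟩
  · obtain ⟨C, hC, hcard⟩ := LinearProgrammingLimit.A_mem n d
    unfold kPointBound
    rw [kPointBoundW_eq, A_eq, ← hcard]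
    have h1 := KP.code_le (k := k) (by omega) C hC (w := fun _ => 1) fun _ => zero_le_one
    simpa using h1
  · have hk1 : 1 ≤ k := le_trans Nat.one_le_two_pow hk
    obtain ⟨C, hC, hcard⟩ := LinearProgrammingLimit.A_mem n d
    refine le_antisymm ?_ ?_
    · unfold kPointBound
      rw [kPointBoundW_eq]
      refine csSup_le ⟨_, _, KP.pc_code (n := n) (d := d) (k := k) ∅ (by simp), rfl⟩ ?_
      rintro v ⟨y, hy, rfl⟩
      simp only [one_mul]
      refine KP.full_level hk hy (A n d) fun C hC => ?_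
      unfold A
      refine le_csSup ⟨Fintype.card (Fin n → Bool), ?_⟩ ⟨C, hC, rfl⟩
      rintro k ⟨C, -, rfl⟩
      exact Finset.card_le_univ C
    · unfold kPointBound
      rw [kPointBoundW_eq, A_eq, ← hcard]
      have h1 := KP.code_le (k := k) hk1 C hC (w := fun _ => 1) fun _ => zero_le_one
      simpa using h1
  · exact LinearProgrammingLimit.result.2.1

end Pool.Agent.Results.MP_0430e4_lc.KPointLimit
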