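import Pool.Agent.H107.CodeOsc2

/-! MP_0430e4_lc: the rates `u δ n = (1/n) log₂ A(n, ⌈δ n⌉)` of the best binary codes can increase
only slowly with `n`. Hence their limit points fill the whole interval between the lower and the
upper limit, and this remains true, with the same interval, along every sequence of lengths with
ratios tending to `1`; every neighbourhood `(x - ε, x + ε)` of a point of the interval is visited
with upper density at least `ε / 8`. -/

open Filter Topology Set

namespace Pool.Agent.Results.MP_0430e4_lc.LimitPoints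

open Pool.Agent.H107.CodeOsc

theorem result (δ : ℝ) (hδ : 0 < δ) :
    (∀ n m : ℕ, 0 < n → n ≤ m → m * u δ m ≤ n * u δ n + (m - n)) ∧
    (∀ φ : ℕ → ℕ, StrictMono φ → Tendsto (fun j => (φ (j + 1) : ℝ) / φ j) atTop (𝓝 1) →
      limsup (fun j => u δ (φ j)) atTop = limsup (u δ) atTop ∧
      liminf (fun j => u δ (φ j)) atTop = liminf (u δ) atTop ∧
      {x | MapClusterPt x atTop (fun j => u δ (φ j))} =
        Icc (liminf (u δ) atTop) (limsup (u δ) atTop)) ∧
    ∀ x ∈ Icc (liminf (u δ) atTop) (limsup (u δ) atTop), ∀ ε : ℝ, 0 < ε → ε ≤ 1 →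
      ∃ᶠ N : ℕ in atTop, ε / 8 * (N : ℝ) ≤
        ({n : ℕ | n ∈ Finset.Icc 1 N ∧ |u δ n - x| < ε}.ncard : ℝ) := by
  refine ⟨fun n m hn h => u_mul_le hδ.le hn h, fun φ hφ hr =>
    ⟨Pool.Agent.H107.SlowGen.inc_limsup_seq (slow hδ.le) hφ hr,
      Pool.Agent.H107.SlowGen.inc_liminf_seq (slow hδ.le) hφ hr,
      Pool.Agent.H107.SlowGen.inc_clusterPts_seq (slow hδ.le) hφ hr⟩, ?_⟩
  intro x hx ε hε hε1
  have := Pool.Agent.H107.SlowGen.inc_visits (slow hδ.le) one_pos hε (by linarith) hx.1 hx.2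
  rw [mul_one] at this
  exact this

end Pool.Agent.Results.MP_0430e4_lc.LimitPoints
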