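import Pool.Agent.H107.CodeMid2

/-! MP_0430e4_lc: large binary codes have many pairs at distances between the minimum distance and
its double. Let `few C a b κ` be the set of the words of `C` that have at most `κ` words of `C` at
distance strictly between `a` and `b`. For a code of length `n` and minimum distance at least `d`,
`few C d (2 d) κ` has at most `(κ + 1) A(n, 2 d)` words up to a polynomial factor; if `d ≥ δ n`, then
for suitable `η, c > 0` the set `few C ((1 + η) d) ((2 - η) d) (2 ^ (c n))` has at most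
`2 ^ ((R(2 δ) + ε) n)` words, and `R(2 δ) < 1 - H₂(δ)` for `0 < δ < 1 / 4`. -/

open Filter Topology

namespace Pool.Agent.Results.MP_0430e4_lc.MiddleDistances

open Pool.Agent.H107.CodeOsc Pool.Agent.H107.CodeMid

theorem result :
    (∀ n d κ : ℕ, 1 ≤ d → ∀ C : Finset (Fin n → Bool),
      (∀ x ∈ C, ∀ y ∈ C, x ≠ y → d ≤ hammingDist x y) →
      (few C d (2 * d) κ).card ≤ (κ + 1) * A n (2 * d) * (4 * (n + 1) * (n + 5).choose 4)) ∧
    (∀ δ ε : ℝ, 0 < δ → 0 < ε →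
      ∃ η c : ℝ, 0 < η ∧ η < 1 / 2 ∧ 0 < c ∧ ∃ n0 : ℕ, ∀ n ≥ n0, ∀ d : ℝ, δ * n ≤ d →
        ∀ C : Finset (Fin n → Bool), (∀ x ∈ C, ∀ y ∈ C, x ≠ y → d ≤ hammingDist x y) →
          ((few C ((1 + η) * d) ((2 - η) * d) ((2 : ℝ) ^ (c * n))).card : ℝ) ≤
            (2 : ℝ) ^ ((rU (2 * δ) + ε) * n)) ∧
    (∀ δ : ℝ, 0 < δ → δ < 1 / 4 → rU (2 * δ) < 1 - Real.binEntropy δ / Real.log 2) :=
  ⟨fun _ _ κ hd C hC => few_exact hd C hC κ, fun _ _ h0 hε => asym h0 hε,
    fun _ h0 h1 => rU_two h0 h1⟩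

end Pool.Agent.Results.MP_0430e4_lc.MiddleDistances
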